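import Pool.Agent.Y142.ZO.Stm

/-!
# Project Y142-ZO, task TAN: the tangent vectors at the identity of the image of a homomorphism
from a group to the `ℓ`-adic matrices form a Lie algebra
-/

set_option autoImplicit false

open Matrix Filter Topology Pool.Agent.Y142.ZO

namespace Pool.Agent.Y708.ZO

/-- a point which is near to sets is the limit of elements of the sets -/
theorem seq_of_near {M : Type*} [PseudoMetricSpace M] (S : ℕ → Set M) (hS : ∀ n, (S n).Nonempty)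
    (X : M) (h : ∀ ε : ℝ, 0 < ε → ∀ᶠ n in atTop, ∃ s ∈ S n, dist X s < ε) :
    ∃ s : ℕ → M, (∀ n, s n ∈ S n) ∧ Tendsto s atTop (𝓝 X) := by
  have h1 : ∀ n : ℕ, ∃ s ∈ S n, dist X s < Metric.infDist X (S n) + 1 / ((n : ℝ) + 1) := by
    intro n
    refine (Metric.infDist_lt_iff (hS n)).1 ?_
    have : (0 : ℝ) < 1 / ((n : ℝ) + 1) := by positivity
    linarith
  choose s hs1 hs2 using h1
  refine ⟨s, hs1, ?_⟩
  rw [tendsto_iff_dist_tendsto_zero]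
  have h2 : Tendsto (fun n => Metric.infDist X (S n)) atTop (𝓝 0) := by
    rw [Metric.tendsto_atTop]
    intro ε hε
    obtain ⟨N, hN⟩ := eventually_atTop.1 (h ε hε)
    refine ⟨N, fun n hn => ?_⟩
    rw [Real.dist_eq, sub_zero, abs_of_nonneg Metric.infDist_nonneg]
    exact (Metric.infDist_lt_iff (hS n)).2 (hN n hn)
  have h3 : Tendsto (fun n : ℕ => Metric.infDist X (S n) + 1 / ((n : ℝ) + 1)) atTop (𝓝 0) := by
    have := h2.add (tendsto_one_div_add_atTop_nhds_zero_nat (𝕜 := ℝ))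
    rwa [add_zero] at this
  refine squeeze_zero (fun n => dist_nonneg) (fun n => ?_) h3
  rw [dist_comm]
  exact (hs2 n).le

section

variable {ℓ : ℕ} [Fact ℓ.Prime] {N : ℕ} {G : Type} [Group G]
  (ρ : G →* Matrix (Fin N) (Fin N) ℚ_[ℓ])

/-- the difference quotient -/
noncomputable def dq (n : ℕ) (g : G) : Matrix (Fin N) (Fin N) ℚ_[ℓ] :=
  ((ℓ : ℚ_[ℓ]) ^ n)⁻¹ • (ρ g - 1)

theorem ell_ne : (ℓ : ℚ_[ℓ]) ≠ 0 := by
  exact_mod_cast (Fact.out : ℓ.Prime).ne_zero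

theorem pow_tendsto : Tendsto (fun n : ℕ => (ℓ : ℚ_[ℓ]) ^ n) atTop (𝓝 0) := by
  refine tendsto_pow_atTop_nhds_zero_of_norm_lt_one ?_
  exact Padic.norm_p_lt_one

theorem eq_of_dq (n : ℕ) (g : G) : ρ g = 1 + (ℓ : ℚ_[ℓ]) ^ n • dq ρ n g := by
  unfold dq
  rw [smul_smul, mul_inv_cancel₀ (pow_ne_zero _ ell_ne), one_smul, add_sub_cancel]

theorem rho_tendsto {σ : ℕ → G} {X : Matrix (Fin N) (Fin N) ℚ_[ℓ]}
    (h : Tendsto (fun n => dq ρ n (σ n)) atTop (𝓝 X)) :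
    Tendsto (fun n => ρ (σ n)) atTop (𝓝 1) := by
  have h1 : Tendsto (fun n : ℕ => 1 + (ℓ : ℚ_[ℓ]) ^ n • dq ρ n (σ n)) atTop
      (𝓝 (1 + (0 : ℚ_[ℓ]) • X)) := tendsto_const_nhds.add (pow_tendsto.smul h)
  rw [zero_smul, add_zero] at h1
  exact h1.congr fun n => (eq_of_dq ρ n (σ n)).symm

theorem rho_inv (g : G) : ρ g⁻¹ = (ρ g)⁻¹ := by
  refine (Matrix.inv_eq_right_inv ?_).symm
  rw [← map_mul, mul_inv_cancel, map_one]

theorem rho_inv_tendsto {σ : ℕ → G} (h : Tendsto (fun n => ρ (σ n)) atTop (𝓝 1)) :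
    Tendsto (fun n => ρ (σ n)⁻¹) atTop (𝓝 1) := by
  have h1 : Tendsto (fun n => (ρ (σ n)).det) atTop (𝓝 1) := by
    have hc : Continuous fun A : Matrix (Fin N) (Fin N) ℚ_[ℓ] => A.det := continuous_id.matrix_det
    have := (hc.tendsto 1).comp h
    rwa [Matrix.det_one] at this
  have h2 : Tendsto (fun n => (ρ (σ n)).adjugate) atTop (𝓝 1) := by
    have hc : Continuous fun A : Matrix (Fin N) (Fin N) ℚ_[ℓ] => A.adjugate :=
      continuous_id.matrix_adjugate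
    have := (hc.tendsto 1).comp h
    rwa [Matrix.adjugate_one] at this
  have h3 : Tendsto (fun n => ((ρ (σ n)).det)⁻¹ • (ρ (σ n)).adjugate) atTop
      (𝓝 ((1 : ℚ_[ℓ])⁻¹ • 1)) := (h1.inv₀ one_ne_zero).smul h2
  rw [inv_one, one_smul] at h3
  refine h3.congr fun n => ?_
  rw [rho_inv, Matrix.inv_def, Ring.inverse_eq_inv']

theorem isTangent_iff_dq (X : Matrix (Fin N) (Fin N) ℚ_[ℓ]) :
    IsTangent ℓ ρ X ↔ ∃ σ : ℕ → G, Tendsto (fun n => dq ρ n (σ n)) atTop (𝓝 X) := Iff.rfl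

theorem tangent_zero : IsTangent ℓ ρ 0 := by
  refine ⟨fun _ => 1, ?_⟩
  simp

theorem tangent_add {X Y : Matrix (Fin N) (Fin N) ℚ_[ℓ]} (hX : IsTangent ℓ ρ X)
    (hY : IsTangent ℓ ρ Y) : IsTangent ℓ ρ (X + Y) := by
  obtain ⟨σ, hσ⟩ := hX
  obtain ⟨τ, hτ⟩ := hY
  refine ⟨fun n => σ n * τ n, ?_⟩
  have h1 : Tendsto (fun n => dq ρ n (σ n) * ρ (τ n) + dq ρ n (τ n)) atTop (𝓝 (X * 1 + Y)) :=
    (Tendsto.mul hσ (rho_tendsto ρ hτ)).add hτ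
  rw [mul_one] at h1
  refine h1.congr fun n => ?_
  unfold dq
  rw [smul_mul_assoc, ← smul_add, map_mul]
  congr 1
  noncomm_ring

theorem tangent_ell_inv {X : Matrix (Fin N) (Fin N) ℚ_[ℓ]} (hX : IsTangent ℓ ρ X) :
    IsTangent ℓ ρ ((ℓ : ℚ_[ℓ])⁻¹ • X) := by
  obtain ⟨σ, hσ⟩ := hX
  refine ⟨fun n => σ (n - 1), ?_⟩
  rw [← tendsto_add_atTop_iff_nat 1]
  have h1 : Tendsto (fun n => (ℓ : ℚ_[ℓ])⁻¹ • dq ρ n (σ n)) atTop (𝓝 ((ℓ : ℚ_[ℓ])⁻¹ • X)) :=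
    hσ.const_smul _
  refine h1.congr fun n => ?_
  unfold dq
  rw [smul_smul, ← mul_inv, ← pow_succ']
  rfl

theorem tangent_conj (g : G) {X : Matrix (Fin N) (Fin N) ℚ_[ℓ]} (hX : IsTangent ℓ ρ X) :
    IsTangent ℓ ρ (ρ g * X * ρ g⁻¹) := by
  obtain ⟨σ, hσ⟩ := hX
  refine ⟨fun n => g * σ n * g⁻¹, ?_⟩
  have h1 : Tendsto (fun n => ρ g * dq ρ n (σ n) * ρ g⁻¹) atTop (𝓝 (ρ g * X * ρ g⁻¹)) :=
    (tendsto_const_nhds.mul hσ).mul tendsto_const_nhds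
  refine h1.congr fun n => ?_
  unfold dq
  rw [mul_smul_comm, smul_mul_assoc]
  congr 1
  rw [mul_sub, sub_mul, mul_one, ← map_mul, ← map_mul, ← map_mul, mul_inv_cancel, map_one]

open scoped Matrix.Norms.Elementwise in
theorem isClosed_tangent : IsClosed {X : Matrix (Fin N) (Fin N) ℚ_[ℓ] | IsTangent ℓ ρ X} := by
  refine isClosed_of_closure_subset fun X hX => ?_
  have h1 : ∀ ε : ℝ, 0 < ε → ∀ᶠ n in atTop, ∃ s ∈ Set.range (fun g : G => dq ρ n g),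
      dist X s < ε := by
    intro ε hε
    obtain ⟨Y, ⟨σ, hσ⟩, hY⟩ := Metric.mem_closure_iff.1 hX (ε / 2) (by linarith)
    have h2 : ∀ᶠ n in atTop, dist (dq ρ n (σ n)) Y < ε / 2 :=
      (Metric.tendsto_nhds.1 (show Tendsto (fun n => dq ρ n (σ n)) atTop (𝓝 Y) from hσ))
        (ε / 2) (by linarith)
    filter_upwards [h2] with n hn
    refine ⟨_, ⟨σ n, rfl⟩, ?_⟩
    calc dist X (dq ρ n (σ n)) ≤ dist X Y + dist Y (dq ρ n (σ n)) := dist_triangle _ _ _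
      _ < ε := by rw [dist_comm Y]; linarith
  obtain ⟨s, hs1, hs2⟩ := seq_of_near (fun n => Set.range (fun g : G => dq ρ n g))
    (fun n => ⟨_, ⟨1, rfl⟩⟩) X h1
  choose σ hσ using hs1
  refine ⟨σ, ?_⟩
  exact hs2.congr fun n => (hσ n).symm

theorem tangent_nat (k : ℕ) {X : Matrix (Fin N) (Fin N) ℚ_[ℓ]} (hX : IsTangent ℓ ρ X) :
    IsTangent ℓ ρ ((k : ℚ_[ℓ]) • X) := by
  induction k with
  | zero =>
    rw [Nat.cast_zero, zero_smul]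
    exact tangent_zero ρ
  | succ k ih =>
    rw [Nat.cast_succ, add_smul, one_smul]
    exact tangent_add ρ ih hX

theorem tangent_padicInt (a : ℤ_[ℓ]) {X : Matrix (Fin N) (Fin N) ℚ_[ℓ]} (hX : IsTangent ℓ ρ X) :
    IsTangent ℓ ρ ((a : ℚ_[ℓ]) • X) := by
  have hc : Continuous fun a : ℤ_[ℓ] => (a : ℚ_[ℓ]) • X :=
    (continuous_subtype_val).smul continuous_const
  have hcl : IsClosed {a : ℤ_[ℓ] | IsTangent ℓ ρ ((a : ℚ_[ℓ]) • X)} :=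
    (isClosed_tangent ρ).preimage hc
  have hd : Dense {a : ℤ_[ℓ] | IsTangent ℓ ρ ((a : ℚ_[ℓ]) • X)} := by
    refine (PadicInt.denseRange_natCast (p := ℓ)).mono ?_
    rintro _ ⟨k, rfl⟩
    show IsTangent ℓ ρ (((k : ℤ_[ℓ]) : ℚ_[ℓ]) • X)
    rw [PadicInt.coe_natCast]
    exact tangent_nat ρ k hX
  have : a ∈ closure {a : ℤ_[ℓ] | IsTangent ℓ ρ ((a : ℚ_[ℓ]) • X)} := hd a
  rwa [hcl.closure_eq] at this

theorem tangent_ell_inv_pow (k : ℕ) {X : Matrix (Fin N) (Fin N) ℚ_[ℓ]} (hX : IsTangent ℓ ρ X) :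
    IsTangent ℓ ρ (((ℓ : ℚ_[ℓ]) ^ k)⁻¹ • X) := by
  induction k with
  | zero => simpa using hX
  | succ k ih =>
    have := tangent_ell_inv ρ ih
    rwa [smul_smul, ← mul_inv, ← pow_succ'] at this

theorem tangent_smul (a : ℚ_[ℓ]) {X : Matrix (Fin N) (Fin N) ℚ_[ℓ]} (hX : IsTangent ℓ ρ X) :
    IsTangent ℓ ρ (a • X) := by
  have hp1 : (1 : ℝ) < ℓ := by exact_mod_cast (Fact.out : ℓ.Prime).one_lt
  obtain ⟨k, hk⟩ := pow_unbounded_of_one_lt ‖a‖ hp1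
  have h1 : ‖(ℓ : ℚ_[ℓ]) ^ k * a‖ ≤ 1 := by
    rw [norm_mul, norm_pow, Padic.norm_p, inv_pow]
    have hpos : (0 : ℝ) < (ℓ : ℝ) ^ k := by positivity
    rw [inv_mul_le_iff₀ hpos, mul_one]
    exact hk.le
  have h2 := tangent_ell_inv_pow ρ k (tangent_padicInt ρ ⟨(ℓ : ℚ_[ℓ]) ^ k * a, h1⟩ hX)
  have h3 : ((ℓ : ℚ_[ℓ]) ^ k)⁻¹ • (((⟨(ℓ : ℚ_[ℓ]) ^ k * a, h1⟩ : ℤ_[ℓ]) : ℚ_[ℓ]) • X) = a • X := by
    rw [smul_smul]
    congr 1
    show ((ℓ : ℚ_[ℓ]) ^ k)⁻¹ * ((ℓ : ℚ_[ℓ]) ^ k * a) = a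
    rw [← mul_assoc, inv_mul_cancel₀ (pow_ne_zero _ ell_ne), one_mul]
  rwa [h3] at h2

/-- the tangent vectors -/
noncomputable def tan : Submodule ℚ_[ℓ] (Matrix (Fin N) (Fin N) ℚ_[ℓ]) where
  carrier := {X | IsTangent ℓ ρ X}
  add_mem' := tangent_add ρ
  zero_mem' := tangent_zero ρ
  smul_mem' a _ := tangent_smul ρ a

theorem mem_tan (X : Matrix (Fin N) (Fin N) ℚ_[ℓ]) : X ∈ tan ρ ↔ IsTangent ℓ ρ X := Iff.rfl

theorem tangent_lie {X Y : Matrix (Fin N) (Fin N) ℚ_[ℓ]} (hX : IsTangent ℓ ρ X)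
    (hY : IsTangent ℓ ρ Y) : IsTangent ℓ ρ (X * Y - Y * X) := by
  obtain ⟨σ, hσ⟩ := hX
  have hρ := rho_inv_tendsto ρ (rho_tendsto ρ hσ)
  have h1 : Tendsto (fun n => dq ρ n (σ n) * Y * ρ (σ n)⁻¹ - Y * (dq ρ n (σ n) * ρ (σ n)⁻¹)) atTop
      (𝓝 (X * Y * 1 - Y * (X * 1))) :=
    ((Tendsto.mul hσ tendsto_const_nhds).mul hρ).sub (tendsto_const_nhds.mul (Tendsto.mul hσ hρ))
  rw [mul_one, mul_one] at h1
  refine (isClosed_tangent ρ).mem_of_tendsto h1 (Eventually.of_forall fun n => ?_)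
  have h2 : ((ℓ : ℚ_[ℓ]) ^ n)⁻¹ • (ρ (σ n) * Y * ρ (σ n)⁻¹ - Y) ∈ tan ρ :=
    (tan ρ).smul_mem _ ((tan ρ).sub_mem (tangent_conj ρ (σ n) hY) hY)
  have h3 : dq ρ n (σ n) * Y * ρ (σ n)⁻¹ - Y * (dq ρ n (σ n) * ρ (σ n)⁻¹) =
      ((ℓ : ℚ_[ℓ]) ^ n)⁻¹ • (ρ (σ n) * Y * ρ (σ n)⁻¹ - Y) := by
    unfold dq
    rw [smul_mul_assoc, smul_mul_assoc, smul_mul_assoc, mul_smul_comm, ← smul_sub]
    congr 1
    have h4 : ρ (σ n) * ρ (σ n)⁻¹ = 1 := by rw [← map_mul, mul_inv_cancel, map_one]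
    have h5 : (ρ (σ n) - 1) * ρ (σ n)⁻¹ = 1 - ρ (σ n)⁻¹ := by rw [sub_mul, h4, one_mul]
    rw [h5]
    noncomm_ring
  show dq ρ n (σ n) * Y * ρ (σ n)⁻¹ - Y * (dq ρ n (σ n) * ρ (σ n)⁻¹) ∈ tan ρ
  rw [h3]
  exact h2

theorem tangent_skew {B : Matrix (Fin N) (Fin N) ℚ_[ℓ]} (hB : Bᵀ = B)
    (hI : ∀ g, Isom B (ρ g)) {X : Matrix (Fin N) (Fin N) ℚ_[ℓ]} (hX : IsTangent ℓ ρ X) :
    Skew B X := by
  obtain ⟨σ, hσ⟩ := hX
  have hρ := rho_tendsto ρ hσ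
  have ht : Tendsto (fun n => (dq ρ n (σ n))ᵀ) atTop (𝓝 Xᵀ) := by
    have hc : Continuous fun A : Matrix (Fin N) (Fin N) ℚ_[ℓ] => Aᵀ :=
      continuous_id.matrix_transpose
    exact (hc.tendsto X).comp hσ
  have h1 : Tendsto (fun n => (dq ρ n (σ n))ᵀ * B * ρ (σ n) + B * dq ρ n (σ n)) atTop
      (𝓝 (Xᵀ * B * 1 + B * X)) :=
    ((ht.mul tendsto_const_nhds).mul hρ).add (tendsto_const_nhds.mul hσ)
  have h2 : ∀ n, (dq ρ n (σ n))ᵀ * B * ρ (σ n) + B * dq ρ n (σ n) = 0 := by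
    intro n
    have h3 : (ρ (σ n))ᵀ * B * ρ (σ n) = B := hI (σ n)
    unfold dq
    rw [Matrix.transpose_smul, smul_mul_assoc, smul_mul_assoc, mul_smul_comm, ← smul_add,
      Matrix.transpose_sub, Matrix.transpose_one]
    have h4 : ((ρ (σ n))ᵀ - 1) * B * ρ (σ n) + B * (ρ (σ n) - 1) =
        (ρ (σ n))ᵀ * B * ρ (σ n) - B := by noncomm_ring
    rw [h4, h3, sub_self, smul_zero]
  simp only [h2] at h1
  have h5 := tendsto_nhds_unique h1 tendsto_const_nhds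
  rw [mul_one] at h5
  unfold Skew
  rw [Matrix.transpose_mul, hB]
  exact eq_neg_of_add_eq_zero_left h5

end

/-- TAN -/
theorem t : S_TAN := by
  intro ℓ _ N G _ ρ
  refine ⟨tan ρ, fun X => mem_tan ρ X, fun X hX Y hY => tangent_lie ρ hX hY,
    fun g X hX => tangent_conj ρ g hX, fun B hB hI X hX => tangent_skew ρ hB hI hX⟩

end Pool.Agent.Y708.ZO
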